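import Pool.Agent.H60.Box.Eval

/-! The two basic checks: `G ≥ 0` on the quadrant, and `|G| ≤ E (a+1)(b+1)` on the unit square. -/

open Polynomial Finset

namespace H60Box

theorem ones_eq_div (K L : ℕ) (hK : 2 ≤ K) : ones K L = (K ^ L - 1) / (K - 1) :=
  Nat.geomSum_eq hK L

noncomputable section

/-- kernel version of `ones (2^(N+1)) L` -/
def kones (N L : ℕ) : ℕ :=
  Nat.div (Nat.sub (Nat.pow 2 (Nat.mul (Nat.succ N) L)) 1) (Nat.sub (Nat.pow 2 (Nat.succ N)) 1)

def kmask (N L : ℕ) : ℕ := Nat.mul (Nat.pow 2 N) (kones N L)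

/-- the check `all digits of P - Q are nonnegative` -/
def kchk (m P Q : ℕ) : Bool := Nat.beq (Nat.land (Nat.sub (Nat.add P m) Q) m) m

end

theorem kones_eq (N L : ℕ) : kones N L = ones (2 ^ (N + 1)) L := by
  rw [ones_eq_div _ _ (by calc 2 = 2 ^ 1 := rfl
                          _ ≤ 2 ^ (N + 1) := Nat.pow_le_pow_right (by norm_num) (by omega)),
    ← pow_mul]
  rfl

theorem kmask_eq (N L : ℕ) : kmask N L = mask N L := by
  show 2 ^ N * kones N L = _
  rw [kones_eq]; rfl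

theorem toNat_sub_add (P Q m : ℕ) : ((P : ℤ) - Q + m).toNat = P + m - Q := by omega

/-- if the check succeeds, all coefficients are nonnegative -/
theorem coeff_nonneg_of_kchk {G : ℤ[X][X]} {a b B N : ℕ} (hG : Rep G a b B) (hB : B < 2 ^ N)
    {P Q : ℕ} (hV : evr ((2 : ℤ) ^ (N + 1)) (((2 : ℤ) ^ (N + 1)) ^ (a + 1)) G = (P : ℤ) - Q)
    (h : kchk (kmask N ((a + 1) * (b + 1))) P Q = true) :
    ∀ l k, 0 ≤ (G.coeff l).coeff k := by
  apply coeff_nonneg hG hB
  rw [hV, toNat_sub_add, ← kmask_eq]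
  exact Nat.eq_of_beq_eq_true h

theorem nonneg_of_kchk {G : ℤ[X][X]} {a b B N : ℕ} (hG : Rep G a b B) (hB : B < 2 ^ N)
    {P Q : ℕ} (hV : evr ((2 : ℤ) ^ (N + 1)) (((2 : ℤ) ^ (N + 1)) ^ (a + 1)) G = (P : ℤ) - Q)
    (h : kchk (kmask N ((a + 1) * (b + 1))) P Q = true) {z w : ℝ} (hz : 0 ≤ z) (hw : 0 ≤ w) :
    0 ≤ evr z w G := evr_nonneg hz hw hG (coeff_nonneg_of_kchk hG hB hV h)

/-- the polynomial with all coefficients one -/
noncomputable def onesP (a b : ℕ) : ℤ[X][X] :=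
  ∑ l ∈ range (b + 1), ∑ k ∈ range (a + 1), (C X) ^ k * X ^ l

theorem Rep.sum {ι : Type*} (s : Finset ι) (f : ι → ℤ[X][X]) (a b : ℕ) (B : ι → ℕ)
    (h : ∀ i ∈ s, Rep (f i) a b (B i)) : Rep (∑ i ∈ s, f i) a b (∑ i ∈ s, B i) := by
  classical
  induction s using Finset.induction_on with
  | empty => simpa using (Rep.natCast 0).mono (Nat.zero_le a) (Nat.zero_le b) le_rfl
  | insert i s hi ih =>
    rw [Finset.sum_insert hi, Finset.sum_insert hi]
    exact (h i (by simp)).add (ih (fun j hj => h j (by simp [hj])))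

theorem rep_onesP (a b : ℕ) : Rep (onesP a b) a b ((a + 1) * (b + 1)) := by
  unfold onesP
  have : Rep (∑ l ∈ range (b + 1), ∑ k ∈ range (a + 1), (C X) ^ k * X ^ l : ℤ[X][X]) a b
      (∑ l ∈ range (b + 1), ∑ k ∈ range (a + 1), 1) := by
    apply Rep.sum
    intro l hl
    apply Rep.sum
    intro k hk
    have h1 := (Rep.inn.pow k).mul (Rep.out.pow l)
    simp only [Finset.mem_range] at hl hk
    exact h1.mono (by omega) (by omega) (by simp)
  simpa [mul_comm] using this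

theorem evr_inn {R : Type*} [CommRing R] (z w : R) : evr z w (C X) = z := by simp [evr]

theorem evr_out {R : Type*} [CommRing R] (z w : R) : evr z w X = w := by simp [evr]

theorem evr_onesP {R : Type*} [CommRing R] (z w : R) (a b : ℕ) :
    evr z w (onesP a b) = ∑ l ∈ range (b + 1), ∑ k ∈ range (a + 1), z ^ k * w ^ l := by
  unfold onesP
  simp only [map_sum, map_mul, map_pow, evr_inn, evr_out]

theorem evr_onesP_big (N a b : ℕ) :
    evr ((2 : ℤ) ^ (N + 1)) (((2 : ℤ) ^ (N + 1)) ^ (a + 1)) (onesP a b)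
      = (ones (2 ^ (N + 1)) ((a + 1) * (b + 1)) : ℕ) := by
  rw [evr_onesP]
  unfold ones
  rw [sum_range_blocks]
  push_cast
  apply Finset.sum_congr rfl
  intro l _
  apply Finset.sum_congr rfl
  intro k _
  rw [pow_add, ← pow_mul _ (a + 1) l]
  ring

theorem evr_onesP_le {x y : ℝ} (hx : 0 ≤ x) (hx1 : x ≤ 1) (hy : 0 ≤ y) (hy1 : y ≤ 1) (a b : ℕ) :
    evr x y (onesP a b) ≤ (a + 1) * (b + 1) := by
  rw [evr_onesP]
  have : ∑ l ∈ range (b + 1), ∑ k ∈ range (a + 1), x ^ k * y ^ l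
      ≤ ∑ l ∈ range (b + 1), ∑ k ∈ range (a + 1), (1 : ℝ) := by
    apply Finset.sum_le_sum
    intro l _
    apply Finset.sum_le_sum
    intro k _
    exact mul_le_one₀ (pow_le_one₀ hx hx1) (by positivity) (pow_le_one₀ hy hy1)
  refine this.trans (le_of_eq ?_)
  simp
  ring

theorem abs_le_of_kchk {G : ℤ[X][X]} {a b B N E : ℕ} (hG : Rep G a b B)
    (hB : B + E * ((a + 1) * (b + 1)) < 2 ^ N) {P Q : ℕ}
    (hV : evr ((2 : ℤ) ^ (N + 1)) (((2 : ℤ) ^ (N + 1)) ^ (a + 1)) G = (P : ℤ) - Q)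
    (h1 : kchk (kmask N ((a + 1) * (b + 1)))
      (Nat.add P (Nat.mul E (kones N ((a + 1) * (b + 1))))) Q = true)
    (h2 : kchk (kmask N ((a + 1) * (b + 1)))
      (Nat.add Q (Nat.mul E (kones N ((a + 1) * (b + 1))))) P = true)
    {x y : ℝ} (hx : 0 ≤ x) (hx1 : x ≤ 1) (hy : 0 ≤ y) (hy1 : y ≤ 1) :
    |evr x y G| ≤ E * ((a + 1) * (b + 1)) := by
  have hE : Rep ((E : ℤ[X][X]) * onesP a b) a b (E * ((a + 1) * (b + 1))) :=
    ((Rep.natCast E).mul (rep_onesP a b)).mono (by omega) (by omega) le_rfl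
  have e1 := nonneg_of_kchk (hG.add hE) hB
    (P := P + E * kones N ((a + 1) * (b + 1))) (Q := Q) (by
      rw [map_add, map_mul, map_natCast, hV, evr_onesP_big, kones_eq]; push_cast; ring) h1 hx hy
  have e2 := nonneg_of_kchk (hG.neg.add hE) hB
    (P := Q + E * kones N ((a + 1) * (b + 1))) (Q := P) (by
      rw [map_add, map_neg, map_mul, map_natCast, hV, evr_onesP_big, kones_eq]
      push_cast; ring) h2 hx hy
  rw [map_add, map_mul, map_natCast] at e1
  rw [map_add, map_neg, map_mul, map_natCast] at e2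
  have e3 := evr_onesP_le hx hx1 hy hy1 a b
  have e4 : (E : ℝ) * evr x y (onesP a b) ≤ E * ((a + 1) * (b + 1)) :=
    mul_le_mul_of_nonneg_left e3 (by positivity)
  rw [abs_le]
  constructor <;> linarith

end H60Box
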