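import Mathlib

/-! Kernel-checkable positivity of bivariate integer polynomials through one big evaluation
(Kronecker substitution): core lemmas. -/

open Polynomial Finset

namespace H60Box

/-! ### digits -/

theorem land_block {N u b v m : ℕ} (hu : u < 2 ^ N) (hb : b < 2 ^ N) :
    (u + 2 ^ N * v) &&& (b + 2 ^ N * m) = (u &&& b) + 2 ^ N * (v &&& m) := by
  apply Nat.eq_of_testBit_eq
  intro j
  have hub : u &&& b < 2 ^ N := lt_of_le_of_lt Nat.and_le_left hu
  rw [Nat.testBit_and, add_comm u, add_comm b, add_comm (u &&& b),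
    Nat.testBit_two_pow_mul_add _ hu, Nat.testBit_two_pow_mul_add _ hb,
    Nat.testBit_two_pow_mul_add _ hub]
  split_ifs <;> simp [Nat.testBit_and]

theorem block_inj {N a b c d : ℕ} (ha : a < 2 ^ N) (hc : c < 2 ^ N)
    (h : a + 2 ^ N * b = c + 2 ^ N * d) : a = c ∧ b = d := by
  have h1 : (a + 2 ^ N * b) % 2 ^ N = (c + 2 ^ N * d) % 2 ^ N := by rw [h]
  rw [Nat.add_mul_mod_self_left, Nat.add_mul_mod_self_left, Nat.mod_eq_of_lt ha,
    Nat.mod_eq_of_lt hc] at h1
  subst h1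
  refine ⟨rfl, ?_⟩
  have h2 : 2 ^ N * b = 2 ^ N * d := by omega
  exact Nat.eq_of_mul_eq_mul_left (by positivity) h2

theorem top_bit {N u : ℕ} (_hu : u < 2 ^ (N + 1)) (h : u &&& 2 ^ N = 2 ^ N) : 2 ^ N ≤ u := by
  have : u &&& 2 ^ N ≤ u := Nat.and_le_left
  omega

/-- mask of `L` digits, base `2^(N+1)`. -/
def ones (K L : ℕ) : ℕ := ∑ t ∈ range L, K ^ t

theorem ones_succ (K L : ℕ) : ones K (L + 1) = 1 + K * ones K L := by
  unfold ones
  rw [Finset.sum_range_succ', Finset.mul_sum, add_comm]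
  simp [pow_succ, mul_comm]

theorem digits_nonneg (N : ℕ) : ∀ (L : ℕ) (c : ℕ → ℤ), (∀ t < L, |c t| < 2 ^ N) →
    ((∑ t ∈ range L, c t * (2 ^ (N + 1)) ^ t + (2 ^ N * ones (2 ^ (N + 1)) L : ℕ)).toNat &&&
      (2 ^ N * ones (2 ^ (N + 1)) L) = 2 ^ N * ones (2 ^ (N + 1)) L) →
    0 ≤ ∑ t ∈ range L, c t * (2 ^ (N + 1)) ^ t + (2 ^ N * ones (2 ^ (N + 1)) L : ℕ) ∧
    ∀ t < L, 0 ≤ c t := by
  intro L
  induction L with
  | zero => intro c _ _; simp [ones]
  | succ L ih =>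
    intro c hc h
    -- split the sum
    have hS : ∑ t ∈ range (L + 1), c t * (2 ^ (N + 1)) ^ t
        = c 0 + 2 ^ (N + 1) * ∑ t ∈ range L, c (t + 1) * (2 ^ (N + 1)) ^ t := by
      rw [Finset.sum_range_succ', Finset.mul_sum]
      simp only [pow_zero, mul_one]
      rw [add_comm]
      congr 1
      apply Finset.sum_congr rfl
      intro t _
      ring
    set S' : ℤ := ∑ t ∈ range L, c (t + 1) * (2 ^ (N + 1)) ^ t with hS'
    have hc0 := hc 0 (Nat.succ_pos _)
    rw [abs_lt] at hc0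
    obtain ⟨u, hu⟩ : ∃ u : ℕ, (u : ℤ) = c 0 + 2 ^ N := ⟨(c 0 + 2 ^ N).toNat, by
      rw [Int.toNat_of_nonneg]; linarith [hc0.1]⟩
    have hu2 : u < 2 ^ (N + 1) := by
      have : (u : ℤ) < 2 ^ (N + 1) := by rw [hu, pow_succ]; linarith [hc0.2]
      exact_mod_cast this
    -- lower bound for the tail
    have htail : 0 ≤ S' + (2 ^ N * ones (2 ^ (N + 1)) L : ℕ) := by
      rw [hS']
      unfold ones
      push_cast
      rw [Finset.mul_sum, ← Finset.sum_add_distrib]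
      apply Finset.sum_nonneg
      intro t ht
      have h1 := hc (t + 1) (by have := Finset.mem_range.mp ht; omega)
      rw [abs_lt] at h1
      have h2 : (0 : ℤ) ≤ (2 ^ (N + 1)) ^ t := by positivity
      nlinarith [h1.1]
    obtain ⟨v, hv⟩ : ∃ v : ℕ, (v : ℤ) = S' + (2 ^ N * ones (2 ^ (N + 1)) L : ℕ) :=
      ⟨(S' + (2 ^ N * ones (2 ^ (N + 1)) L : ℕ)).toNat, by rw [Int.toNat_of_nonneg htail]⟩
    have hmask : 2 ^ N * ones (2 ^ (N + 1)) (L + 1)
        = 2 ^ N + 2 ^ (N + 1) * (2 ^ N * ones (2 ^ (N + 1)) L) := by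
      rw [ones_succ]; ring
    have htot : ∑ t ∈ range (L + 1), c t * (2 ^ (N + 1)) ^ t
        + (2 ^ N * ones (2 ^ (N + 1)) (L + 1) : ℕ) = ((u + 2 ^ (N + 1) * v : ℕ) : ℤ) := by
      rw [hS, hmask]
      push_cast
      rw [hu, hv]
      push_cast
      ring
    rw [htot] at h ⊢
    rw [Int.toNat_natCast, hmask, land_block hu2 (by rw [pow_succ]; have : 0 < 2 ^ N := by positivity
                                                     omega)] at h
    have hlt : (2 : ℕ) ^ N < 2 ^ (N + 1) := by rw [pow_succ]; have : 0 < 2 ^ N := by positivity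
                                               omega
    obtain ⟨h1, h2⟩ := block_inj (lt_of_le_of_lt Nat.and_le_left hu2) hlt h
    have h3 := top_bit hu2 h1
    have hc00 : 0 ≤ c 0 := by
      have : ((2 ^ N : ℕ) : ℤ) ≤ u := by exact_mod_cast h3
      rw [hu] at this
      push_cast at this
      linarith
    have ih2 := ih (fun t => c (t + 1)) (fun t ht => hc (t + 1) (by omega))
    rw [← hS', ← hv] at ih2
    have ih3 := ih2 (by simpa using h2)
    refine ⟨by positivity, ?_⟩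
    intro t ht
    rcases t with _ | t
    · exact hc00
    · exact ih3.2 t (by omega)

/-! ### bivariate integer polynomials as differences of natural ones -/

/-- the value at `(1,1)` -/
noncomputable def ev1 : ℕ[X][X] →+* ℕ := (evalRingHom (1 : ℕ)).comp (evalRingHom (1 : ℕ[X]))

noncomputable def cst : ℕ[X][X] →+* ℤ[X][X] := mapRingHom (mapRingHom (Nat.castRingHom ℤ))

theorem coeff_cst (P : ℕ[X][X]) (l k : ℕ) :
    ((cst P).coeff l).coeff k = (((P.coeff l).coeff k : ℕ) : ℤ) := by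
  simp [cst, coeff_map]

theorem coeff_le_eval_one (p : ℕ[X]) (k : ℕ) : p.coeff k ≤ p.eval 1 := by
  rw [eval_eq_sum_range]
  simp only [one_pow, mul_one]
  by_cases hk : k ∈ range (p.natDegree + 1)
  · exact Finset.single_le_sum (f := fun i => p.coeff i) (fun _ _ => Nat.zero_le _) hk
  · rw [coeff_eq_zero_of_natDegree_lt (by simpa using hk)]
    exact Nat.zero_le _

theorem ev1_eq (P : ℕ[X][X]) : ev1 P = ∑ l ∈ range (P.natDegree + 1), (P.coeff l).eval 1 := by
  simp only [ev1, RingHom.comp_apply, coe_evalRingHom]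
  rw [eval_eq_sum_range (p := P)]
  simp [eval_finsetSum]

theorem eval_mono_one (P : ℕ[X][X]) (l : ℕ) : (P.coeff l).eval 1 ≤ ev1 P := by
  rw [ev1_eq]
  by_cases hl : l ∈ range (P.natDegree + 1)
  · exact Finset.single_le_sum (f := fun i => (P.coeff i).eval 1) (fun _ _ => Nat.zero_le _) hl
  · rw [coeff_eq_zero_of_natDegree_lt (by simpa using hl)]
    simp

theorem coeff_le_ev1 (P : ℕ[X][X]) (l k : ℕ) : (P.coeff l).coeff k ≤ ev1 P :=
  le_trans (coeff_le_eval_one _ k) (eval_mono_one P l)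

/-- inner degree at most `a`, outer degree at most `b` -/
def DegB (P : ℕ[X][X]) (a b : ℕ) : Prop := P.natDegree ≤ b ∧ ∀ l, (P.coeff l).natDegree ≤ a

theorem DegB.add {P Q : ℕ[X][X]} {a b : ℕ} (hP : DegB P a b) (hQ : DegB Q a b) :
    DegB (P + Q) a b :=
  ⟨natDegree_add_le_of_degree_le hP.1 hQ.1, fun l => by
    rw [coeff_add]; exact natDegree_add_le_of_degree_le (hP.2 l) (hQ.2 l)⟩

theorem DegB.mul {P Q : ℕ[X][X]} {a b a' b' : ℕ} (hP : DegB P a b) (hQ : DegB Q a' b') :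
    DegB (P * Q) (a + a') (b + b') :=
  ⟨natDegree_mul_le_of_le hP.1 hQ.1, fun l => by
    rw [coeff_mul]
    apply natDegree_sum_le_of_forall_le
    intro x _
    exact natDegree_mul_le_of_le (hP.2 _) (hQ.2 _)⟩

theorem DegB.mono {P : ℕ[X][X]} {a b a' b' : ℕ} (hP : DegB P a b) (ha : a ≤ a') (hb : b ≤ b') :
    DegB P a' b' := ⟨hP.1.trans hb, fun l => (hP.2 l).trans ha⟩

/-- `G` is a difference of two polynomials with natural coefficients, of bidegree `≤ (a,b)`,
whose values at `(1,1)` add up to at most `B`. -/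
def Rep (G : ℤ[X][X]) (a b B : ℕ) : Prop :=
  ∃ P Q : ℕ[X][X], G = cst P - cst Q ∧ DegB P a b ∧ DegB Q a b ∧ ev1 P + ev1 Q ≤ B

theorem Rep.mono {G : ℤ[X][X]} {a b B a' b' B' : ℕ} (h : Rep G a b B) (ha : a ≤ a')
    (hb : b ≤ b') (hB : B ≤ B') : Rep G a' b' B' := by
  obtain ⟨P, Q, h1, h2, h3, h4⟩ := h
  exact ⟨P, Q, h1, h2.mono ha hb, h3.mono ha hb, h4.trans hB⟩

theorem Rep.add {G H : ℤ[X][X]} {a b B B' : ℕ} (hG : Rep G a b B) (hH : Rep H a b B') :
    Rep (G + H) a b (B + B') := by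
  obtain ⟨P, Q, h1, h2, h3, h4⟩ := hG
  obtain ⟨P', Q', h1', h2', h3', h4'⟩ := hH
  refine ⟨P + P', Q + Q', ?_, h2.add h2', h3.add h3', ?_⟩
  · rw [h1, h1', map_add, map_add]; ring
  · rw [map_add, map_add]; omega

theorem Rep.neg {G : ℤ[X][X]} {a b B : ℕ} (hG : Rep G a b B) : Rep (-G) a b B := by
  obtain ⟨P, Q, h1, h2, h3, h4⟩ := hG
  exact ⟨Q, P, by rw [h1]; ring, h3, h2, by omega⟩

theorem Rep.sub {G H : ℤ[X][X]} {a b B B' : ℕ} (hG : Rep G a b B) (hH : Rep H a b B') :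
    Rep (G - H) a b (B + B') := by
  rw [sub_eq_add_neg]; exact hG.add hH.neg

theorem Rep.mul {G H : ℤ[X][X]} {a b B a' b' B' : ℕ} (hG : Rep G a b B) (hH : Rep H a' b' B') :
    Rep (G * H) (a + a') (b + b') (B * B') := by
  obtain ⟨P, Q, h1, h2, h3, h4⟩ := hG
  obtain ⟨P', Q', h1', h2', h3', h4'⟩ := hH
  refine ⟨P * P' + Q * Q', P * Q' + Q * P', ?_, (h2.mul h2').add (h3.mul h3'),
    (h2.mul h3').add (h3.mul h2'), ?_⟩
  · rw [h1, h1']; simp only [map_add, map_mul]; ring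
  · simp only [map_add, map_mul]
    calc _ = (ev1 P + ev1 Q) * (ev1 P' + ev1 Q') := by ring
    _ ≤ B * B' := Nat.mul_le_mul h4 h4'

theorem Rep.natCast (k : ℕ) : Rep (k : ℤ[X][X]) 0 0 k := by
  refine ⟨(k : ℕ[X][X]), 0, by simp, ⟨by simp, fun l => ?_⟩, ⟨by simp, by simp⟩, by simp⟩
  rw [← C_eq_natCast, coeff_C]
  split_ifs <;> simp

theorem Rep.intCast (k : ℤ) : Rep (k : ℤ[X][X]) 0 0 k.natAbs := by
  obtain ⟨n, rfl | rfl⟩ := k.eq_nat_or_neg
  · simpa using Rep.natCast n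
  · simpa using (Rep.natCast n).neg

theorem Rep.inn : Rep (C X : ℤ[X][X]) 1 0 1 := by
  refine ⟨C X, 0, by simp [cst], ⟨by simp, fun l => ?_⟩, ⟨by simp, by simp⟩, by simp [ev1]⟩
  rw [coeff_C]
  split_ifs <;> simp

theorem Rep.out : Rep (X : ℤ[X][X]) 0 1 1 := by
  refine ⟨X, 0, by simp [cst], ⟨by simp, fun l => ?_⟩, ⟨by simp, by simp⟩, by simp [ev1]⟩
  rw [coeff_X]
  split_ifs <;> simp

theorem Rep.pow {G : ℤ[X][X]} {a b B : ℕ} (hG : Rep G a b B) (n : ℕ) :
    Rep (G ^ n) (n * a) (n * b) (B ^ n) := by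
  induction n with
  | zero => simpa using Rep.natCast 1
  | succ n ih =>
    have := ih.mul hG
    rw [pow_succ, pow_succ]
    exact this.mono (by ring_nf; omega) (by ring_nf; omega) le_rfl

theorem Rep.abs_coeff_le {G : ℤ[X][X]} {a b B : ℕ} (hG : Rep G a b B) (l k : ℕ) :
    |(G.coeff l).coeff k| ≤ B := by
  obtain ⟨P, Q, h1, h2, h3, h4⟩ := hG
  rw [h1, coeff_sub, coeff_sub, coeff_cst, coeff_cst]
  have hp := coeff_le_ev1 P l k
  have hq := coeff_le_ev1 Q l k
  rw [abs_le]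
  constructor <;> omega

theorem Rep.deg_out {G : ℤ[X][X]} {a b B : ℕ} (hG : Rep G a b B) : G.natDegree ≤ b := by
  obtain ⟨P, Q, h1, h2, h3, h4⟩ := hG
  rw [h1]
  have e1 : (cst P).natDegree ≤ b := by
    simp only [cst, coe_mapRingHom]; exact le_trans natDegree_map_le h2.1
  have e2 : (cst Q).natDegree ≤ b := by
    simp only [cst, coe_mapRingHom]; exact le_trans natDegree_map_le h3.1
  simpa using natDegree_sub_le_of_le e1 e2

theorem Rep.deg_in {G : ℤ[X][X]} {a b B : ℕ} (hG : Rep G a b B) (l : ℕ) :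
    (G.coeff l).natDegree ≤ a := by
  obtain ⟨P, Q, h1, h2, h3, h4⟩ := hG
  rw [h1, coeff_sub]
  have e1 : ((cst P).coeff l).natDegree ≤ a := by
    simp only [cst, coe_mapRingHom, coeff_map]; exact le_trans natDegree_map_le (h2.2 l)
  have e2 : ((cst Q).coeff l).natDegree ≤ a := by
    simp only [cst, coe_mapRingHom, coeff_map]; exact le_trans natDegree_map_le (h3.2 l)
  simpa using natDegree_sub_le_of_le e1 e2

/-- evaluation of a bivariate integer polynomial in a commutative ring: `z` inner, `w` outer -/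
noncomputable def evr {R : Type*} [CommRing R] (z w : R) : ℤ[X][X] →+* R :=
  eval₂RingHom (eval₂RingHom (Int.castRingHom R) z) w

theorem evr_eq_sum {R : Type*} [CommRing R] (z w : R) {G : ℤ[X][X]} {a b B : ℕ}
    (hG : Rep G a b B) : evr z w G = ∑ l ∈ range (b + 1), ∑ k ∈ range (a + 1),
      (((G.coeff l).coeff k : ℤ) : R) * z ^ k * w ^ l := by
  simp only [evr, coe_eval₂RingHom]
  rw [eval₂_eq_sum_range' _ (Nat.lt_succ_of_le hG.deg_out)]
  apply Finset.sum_congr rfl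
  intro l _
  rw [coe_eval₂RingHom, eval₂_eq_sum_range' _ (Nat.lt_succ_of_le (hG.deg_in l)), Finset.sum_mul]
  simp

theorem evr_nonneg {z w : ℝ} (hz : 0 ≤ z) (hw : 0 ≤ w) {G : ℤ[X][X]} {a b B : ℕ}
    (hG : Rep G a b B) (h : ∀ l k, 0 ≤ (G.coeff l).coeff k) : 0 ≤ evr z w G := by
  rw [evr_eq_sum z w hG]
  apply Finset.sum_nonneg
  intro l _
  apply Finset.sum_nonneg
  intro k _
  have : (0 : ℝ) ≤ (((G.coeff l).coeff k : ℤ) : ℝ) := by exact_mod_cast h l k
  positivity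

theorem sum_range_blocks {M : Type*} [AddCommMonoid M] (f : ℕ → M) (A : ℕ) :
    ∀ L, ∑ t ∈ range (A * L), f t = ∑ l ∈ range L, ∑ k ∈ range A, f (A * l + k)
  | 0 => by simp
  | L + 1 => by
    rw [Nat.mul_succ, Finset.sum_range_add, sum_range_blocks f A L, Finset.sum_range_succ]

/-- the mask -/
def mask (N L : ℕ) : ℕ := 2 ^ N * ones (2 ^ (N + 1)) L

/-- **main digit theorem** -/
theorem coeff_nonneg {G : ℤ[X][X]} {a b B N : ℕ} (hG : Rep G a b B) (hB : B < 2 ^ N)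
    (h : (evr ((2 : ℤ) ^ (N + 1)) (((2 : ℤ) ^ (N + 1)) ^ (a + 1)) G
      + (mask N ((a + 1) * (b + 1)) : ℕ)).toNat &&& mask N ((a + 1) * (b + 1))
      = mask N ((a + 1) * (b + 1))) :
    ∀ l k, 0 ≤ (G.coeff l).coeff k := by
  set c : ℕ → ℤ := fun t => (G.coeff (t / (a + 1))).coeff (t % (a + 1)) with hc
  have hV : evr ((2 : ℤ) ^ (N + 1)) (((2 : ℤ) ^ (N + 1)) ^ (a + 1)) G
      = ∑ t ∈ range ((a + 1) * (b + 1)), c t * ((2 : ℤ) ^ (N + 1)) ^ t := by
    rw [evr_eq_sum _ _ hG, sum_range_blocks]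
    apply Finset.sum_congr rfl
    intro l _
    apply Finset.sum_congr rfl
    intro k hk
    have hk' : k < a + 1 := Finset.mem_range.mp hk
    simp only [hc]
    rw [Nat.mul_add_div (Nat.succ_pos a), Nat.div_eq_of_lt hk', Nat.mul_add_mod,
      Nat.mod_eq_of_lt hk', add_zero, pow_add, ← pow_mul _ (a + 1) l, pow_mul]
    simp only [Int.cast_id]
    ring
  rw [hV] at h
  have key := (digits_nonneg N ((a + 1) * (b + 1)) c (fun t _ => by
    have h1 := hG.abs_coeff_le (t / (a + 1)) (t % (a + 1))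
    have h2 : ((B : ℕ) : ℤ) < 2 ^ N := by exact_mod_cast hB
    exact lt_of_le_of_lt h1 h2) h).2
  intro l k
  by_cases hl : l < b + 1
  · by_cases hk : k < a + 1
    · have h3 := key ((a + 1) * l + k) (by nlinarith)
      simp only [hc] at h3
      rwa [Nat.mul_add_div (Nat.succ_pos a), Nat.div_eq_of_lt hk, Nat.mul_add_mod,
        Nat.mod_eq_of_lt hk, add_zero] at h3
    · rw [coeff_eq_zero_of_natDegree_lt (lt_of_le_of_lt (hG.deg_in l) (by omega))]
  · rw [coeff_eq_zero_of_natDegree_lt (lt_of_le_of_lt hG.deg_out (by omega : b < l)), coeff_zero]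

end H60Box
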