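import Pool.Agent.H60.Box.Core

/-! Evaluation of bivariate polynomials with natural coefficients given by lists of rows:
generic (commutative semiring) and kernel versions. -/

open Polynomial Finset

namespace H60Box

section generic

variable {R S : Type*} [CommSemiring R] [CommSemiring S]

/-- dot product of a list of natural numbers with a list in `R` -/
def gdot : List ℕ → List R → R
  | [], _ => 0
  | _ :: _, [] => 0
  | a :: l, b :: m => a * b + gdot l m

/-- `∑_j S_j * (row_j . T)` -/
def gval : List (List ℕ) → List R → List R → R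
  | [], _, _ => 0
  | _ :: _, _, [] => 0
  | r :: rs, T, s :: ss => s * gdot r T + gval rs T ss

/-- the list `x^i u^(n-i), x^(i+1) u^(n-i-1), ...` (`k` entries) -/
def gT (x u : R) (n : ℕ) : ℕ → ℕ → List R
  | 0, _ => []
  | k + 1, i => (x ^ i * u ^ (n - i)) :: gT x u n k (i + 1)

/-- full list of the `n+1` monomials of degree `n` in `x,u` -/
def gTl (x u : R) (n : ℕ) : List R := gT x u n (n + 1) 0

/-- Horner evaluation in the second variable -/
def ghor : List (List ℕ) → List R → R → R
  | [], _, _ => 0
  | r :: rs, T, y => gdot r T + y * ghor rs T y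

theorem map_gdot (f : R →+* S) (l : List ℕ) (m : List R) :
    f (gdot l m) = gdot l (m.map f) := by
  induction l generalizing m with
  | nil => simp [gdot]
  | cons a l ih =>
    cases m with
    | nil => simp [gdot]
    | cons b m => simp [gdot, ih]

theorem map_gval (f : R →+* S) (rows : List (List ℕ)) (T U : List R) :
    f (gval rows T U) = gval rows (T.map f) (U.map f) := by
  induction rows generalizing U with
  | nil => simp [gval]
  | cons r rs ih =>
    cases U with
    | nil => simp [gval]
    | cons s ss => simp [gval, ih, map_gdot]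

theorem map_ghor (f : R →+* S) (rows : List (List ℕ)) (T : List R) (y : R) :
    f (ghor rows T y) = ghor rows (T.map f) (f y) := by
  induction rows with
  | nil => simp [ghor]
  | cons r rs ih => simp [ghor, ih, map_gdot]

theorem map_gT (f : R →+* S) (x u : R) (n k i : ℕ) :
    (gT x u n k i).map f = gT (f x) (f u) n k i := by
  induction k generalizing i with
  | zero => simp [gT]
  | succ k ih => simp [gT, ih]

theorem map_gTl (f : R →+* S) (x u : R) (n : ℕ) :
    (gTl x u n).map f = gTl (f x) (f u) n := map_gT f x u n _ _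

/-- scaling -/
theorem gT_scale (x u : R) (n k i : ℕ) (h : i + k ≤ n + 1) :
    gT (x * u) u n k i = (gT x 1 n k i).map (fun t => u ^ n * t) := by
  induction k generalizing i with
  | zero => simp [gT]
  | succ k ih =>
    simp only [gT, List.map_cons, List.cons.injEq]
    refine ⟨?_, ih (i + 1) (by omega)⟩
    have : n = i + (n - i) := by omega
    rw [one_pow, mul_one, mul_pow]
    nth_rewrite 2 [this]
    rw [pow_add]
    ring

theorem gdot_scale (l : List ℕ) (c : R) (m : List R) :
    gdot l (m.map (fun t => c * t)) = c * gdot l m := by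
  induction l generalizing m with
  | nil => simp [gdot]
  | cons a l ih =>
    cases m with
    | nil => simp [gdot]
    | cons b m => simp only [gdot, List.map_cons, ih]; ring

theorem gval_scale (rows : List (List ℕ)) (c d : R) (T U : List R) :
    gval rows (T.map (fun t => c * t)) (U.map (fun t => d * t)) = c * d * gval rows T U := by
  induction rows generalizing U with
  | nil => simp [gval]
  | cons r rs ih =>
    cases U with
    | nil => simp [gval]
    | cons s ss => simp only [gval, List.map_cons, ih, gdot_scale]; ring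

/-- the polynomial of bidegree `≤ (n,n)` defined by the rows (entries beyond are ignored) -/
def pv (rows : List (List ℕ)) (n : ℕ) (x y : R) : R := gval rows (gTl x 1 n) (gTl y 1 n)

theorem gval_homog (rows : List (List ℕ)) (n : ℕ) (x u y v : R) :
    gval rows (gTl (x * u) u n) (gTl (y * v) v n) = u ^ n * v ^ n * pv rows n x y := by
  unfold pv gTl
  rw [gT_scale x u n (n + 1) 0 (by omega), gT_scale y v n (n + 1) 0 (by omega), gval_scale]

theorem map_pv (f : R →+* S) (rows : List (List ℕ)) (n : ℕ) (x y : R) :
    f (pv rows n x y) = pv rows n (f x) (f y) := by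
  unfold pv
  rw [map_gval, map_gTl, map_gTl, map_one]

theorem gval_eq_ghor_aux (rows : List (List ℕ)) (T : List R) (y : R) (n : ℕ) (k i : ℕ)
    (h : rows.length ≤ k) (hk : i + k ≤ n + 1) :
    gval rows T (gT y 1 n k i) = y ^ i * ghor rows T y := by
  induction rows generalizing k i with
  | nil => simp [gval, ghor]
  | cons r rs ih =>
    rcases k with _ | k
    · simp at h
    · simp only [gT, gval, ghor, one_pow, mul_one]
      rw [ih k (i + 1) (by simpa using h) (by omega), pow_succ]
      ring

theorem pv_eq_ghor (rows : List (List ℕ)) (n : ℕ) (x y : R) (h : rows.length ≤ n + 1) :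
    pv rows n x y = ghor rows (gTl x 1 n) y := by
  unfold pv
  have := gval_eq_ghor_aux rows (gTl x 1 n) y n (n + 1) 0 h (by omega)
  rw [gTl, gTl] at *
  rw [this]
  simp

end generic

/-! ### kernel versions over `ℕ` -/

noncomputable section kernel

def kdot (l : List ℕ) : List ℕ → ℕ :=
  List.rec (fun _ => 0)
    (fun a _ ih m => List.rec 0 (fun b t _ => Nat.add (Nat.mul a b) (ih t)) m) l

def kval (rows : List (List ℕ)) (T : List ℕ) : List ℕ → ℕ :=
  List.rec (fun _ => 0)
    (fun r _ ih m => List.rec 0 (fun s t _ => Nat.add (Nat.mul s (kdot r T)) (ih t)) m) rows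

def kT (x u n : ℕ) (k : ℕ) : ℕ → List ℕ :=
  Nat.rec (fun _ => [])
    (fun _ ih i => (Nat.mul (Nat.pow x i) (Nat.pow u (Nat.sub n i))) :: ih (Nat.succ i)) k

def kTl (x u n : ℕ) : List ℕ := kT x u n (Nat.succ n) 0

/-- Horner in the second variable, with `y = 2^M + cp - cm` -/
def khor (rows : List (List ℕ)) (T : List ℕ) (M cp cm : ℕ) : ℕ :=
  List.rec 0 (fun r _ ih => Nat.add (kdot r T)
    (Nat.sub (Nat.add (Nat.shiftLeft ih M) (Nat.mul cp ih)) (Nat.mul cm ih))) rows

end kernel

theorem kdot_eq (l m : List ℕ) : kdot l m = gdot l m := by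
  induction l generalizing m with
  | nil => rfl
  | cons a l ih =>
    cases m with
    | nil => rfl
    | cons b m =>
      show Nat.add (Nat.mul a b) (kdot l m) = _
      rw [ih]; rfl

theorem kval_eq (rows : List (List ℕ)) (T U : List ℕ) : kval rows T U = gval rows T U := by
  induction rows generalizing U with
  | nil => rfl
  | cons r rs ih =>
    cases U with
    | nil => rfl
    | cons s ss =>
      show Nat.add (Nat.mul s (kdot r T)) (kval rs T ss) = _
      rw [ih, kdot_eq]; rfl

theorem kT_eq (x u n k i : ℕ) : kT x u n k i = gT x u n k i := by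
  induction k generalizing i with
  | zero => rfl
  | succ k ih =>
    show (Nat.mul (Nat.pow x i) (Nat.pow u (Nat.sub n i))) :: kT x u n k (Nat.succ i) = _
    rw [ih]; rfl

theorem kTl_eq (x u n : ℕ) : kTl x u n = gTl x u n := kT_eq x u n (n + 1) 0

theorem khor_eq (rows : List (List ℕ)) (T : List ℕ) (M cp cm y : ℕ) (h : y + cm = 2 ^ M + cp) :
    khor rows T M cp cm = ghor rows T y := by
  induction rows with
  | nil => rfl
  | cons r rs ih =>
    show Nat.add (kdot r T) (Nat.sub (Nat.add (Nat.shiftLeft (khor rs T M cp cm) M)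
      (Nat.mul cp (khor rs T M cp cm))) (Nat.mul cm (khor rs T M cp cm))) = _
    rw [ih, kdot_eq]
    show gdot r T + ((ghor rs T y) <<< M + cp * ghor rs T y - cm * ghor rs T y) = _
    rw [Nat.shiftLeft_eq]
    have h2 : ghor rs T y * 2 ^ M + cp * ghor rs T y = y * ghor rs T y + cm * ghor rs T y := by
      have : (y + cm) * ghor rs T y = (2 ^ M + cp) * ghor rs T y := by rw [h]
      nlinarith [this]
    rw [h2, Nat.add_sub_cancel]
    rfl

/-! ### representability -/

theorem Rep.gdot {a b : ℕ} (l : List ℕ) (T : List ℤ[X][X]) (TB : List ℕ)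
    (h : List.Forall₂ (fun t c => Rep t a b c) T TB) :
    Rep (gdot l T) a b (H60Box.gdot l TB) := by
  induction l generalizing T TB with
  | nil => simpa [H60Box.gdot] using (Rep.natCast 0).mono (Nat.zero_le a) (Nat.zero_le b) le_rfl
  | cons c l ih =>
    cases h with
    | nil => simpa [H60Box.gdot] using (Rep.natCast 0).mono (Nat.zero_le a) (Nat.zero_le b) le_rfl
    | cons h1 h2 =>
      simp only [H60Box.gdot]
      exact (((Rep.natCast c).mul h1).mono (by omega) (by omega) le_rfl).add (ih _ _ h2)

theorem Rep.gval {a b : ℕ} (rows : List (List ℕ)) (T U : List ℤ[X][X]) (TB UB : List ℕ)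
    (hT : List.Forall₂ (fun t c => Rep t a 0 c) T TB)
    (hU : List.Forall₂ (fun t c => Rep t 0 b c) U UB) :
    Rep (gval rows T U) a b (H60Box.gval rows TB UB) := by
  induction rows generalizing U UB with
  | nil => simpa [H60Box.gval] using (Rep.natCast 0).mono (Nat.zero_le a) (Nat.zero_le b) le_rfl
  | cons r rs ih =>
    cases hU with
    | nil => simpa [H60Box.gval] using (Rep.natCast 0).mono (Nat.zero_le a) (Nat.zero_le b) le_rfl
    | cons h1 h2 =>
      simp only [H60Box.gval]
      exact ((h1.mul (Rep.gdot r T TB hT)).mono (by omega) (by omega) le_rfl).add (ih _ _ h2)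

theorem Rep.gT_in {x u : ℤ[X][X]} {M U : ℕ} (hx : Rep x 1 0 M) (hu : Rep u 1 0 U) (n k i : ℕ)
    (h : i + k ≤ n + 1) : List.Forall₂ (fun t c => Rep t n 0 c) (gT x u n k i) (gT M U n k i) := by
  induction k generalizing i with
  | zero => simp [gT]
  | succ k ih =>
    simp only [gT]
    refine List.Forall₂.cons ?_ (ih (i + 1) (by omega))
    exact ((hx.pow i).mul (hu.pow (n - i))).mono (by omega) (by omega) le_rfl

theorem Rep.gT_out {x u : ℤ[X][X]} {M U : ℕ} (hx : Rep x 0 1 M) (hu : Rep u 0 1 U) (n k i : ℕ)
    (h : i + k ≤ n + 1) : List.Forall₂ (fun t c => Rep t 0 n c) (gT x u n k i) (gT M U n k i) := by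
  induction k generalizing i with
  | zero => simp [gT]
  | succ k ih =>
    simp only [gT]
    refine List.Forall₂.cons ?_ (ih (i + 1) (by omega))
    exact ((hx.pow i).mul (hu.pow (n - i))).mono (by omega) (by omega) le_rfl

theorem Rep.gval_gTl {x u y v : ℤ[X][X]} {Mx U My V : ℕ} (hx : Rep x 1 0 Mx) (hu : Rep u 1 0 U)
    (hy : Rep y 0 1 My) (hv : Rep v 0 1 V) (rows : List (List ℕ)) (n : ℕ) :
    Rep (H60Box.gval rows (gTl x u n) (gTl y v n)) n n
      (H60Box.gval rows (gTl Mx U n) (gTl My V n)) :=
  Rep.gval rows _ _ _ _ (Rep.gT_in hx hu n (n + 1) 0 (by omega))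
    (Rep.gT_out hy hv n (n + 1) 0 (by omega))

/-! monotonicity of the natural versions -/

theorem gdot_mono (l : List ℕ) {m m' : List ℕ} (h : List.Forall₂ (· ≤ ·) m m') :
    gdot l m ≤ gdot l m' := by
  induction l generalizing m m' with
  | nil => simp [gdot]
  | cons a l ih =>
    cases h with
    | nil => simp [gdot]
    | cons h1 h2 =>
      simp only [gdot]
      exact Nat.add_le_add (Nat.mul_le_mul_left _ h1) (ih h2)

theorem gval_mono (rows : List (List ℕ)) {T T' U U' : List ℕ} (hT : List.Forall₂ (· ≤ ·) T T')
    (hU : List.Forall₂ (· ≤ ·) U U') : gval rows T U ≤ gval rows T' U' := by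
  induction rows generalizing U U' with
  | nil => simp [gval]
  | cons r rs ih =>
    cases hU with
    | nil => simp [gval]
    | cons h1 h2 =>
      simp only [gval]
      exact Nat.add_le_add (Nat.mul_le_mul h1 (gdot_mono r hT)) (ih h2)

theorem gT_mono {x x' u u' : ℕ} (hx : x ≤ x') (hu : u ≤ u') (n k i : ℕ) :
    List.Forall₂ (· ≤ ·) (gT x u n k i) (gT x' u' n k i) := by
  induction k generalizing i with
  | zero => simp [gT]
  | succ k ih =>
    simp only [gT]
    exact List.Forall₂.cons (Nat.mul_le_mul (Nat.pow_le_pow_left hx _) (Nat.pow_le_pow_left hu _))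
      (ih (i + 1))

end H60Box
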